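import Pool.Agent.R284.RC.Stm

/-!
# RC-CLS: bookkeeping for the class of a measure (project RC, MP_ce24da_an)
-/

set_option autoImplicit false
open MeasureTheory Set Filter Topology
open scoped ENNReal NNReal

namespace Pool.Agent.R874.RC.Cls

open Pool.Agent.R284.RC

variable {n : ℕ}

lemma smul_mono {a b : ℝ≥0∞} (h : a ≤ b) (μ : Measure (E n)) : a • μ ≤ b • μ := by
  refine Measure.le_iff.2 fun s _ => ?_
  rw [Measure.smul_apply, Measure.smul_apply, smul_eq_mul, smul_eq_mul]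
  gcongr

lemma smul_mono_right (a : ℝ≥0∞) {μ ν : Measure (E n)} (h : μ ≤ ν) : a • μ ≤ a • ν := by
  refine Measure.le_iff.2 fun s _ => ?_
  rw [Measure.smul_apply, Measure.smul_apply, smul_eq_mul, smul_eq_mul]
  exact mul_le_mul' le_rfl (h s)

lemma nn_smul (c : ℝ≥0) (μ : Measure (E n)) : c • μ = (c : ℝ≥0∞) • μ := rfl

lemma nr_le (μ : Measure (E n)) (D : Set (E n)) : nr μ D ≤ (μ D)⁻¹ • μ := by
  unfold nr
  exact smul_mono_right _ Measure.restrict_le_self

lemma pot_le {q : ℝ} {a : ℝ≥0∞} {σ μ : Measure (E n)} (h : σ ≤ a • μ) (x : E n) :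
    Pot q σ x ≤ a * Pot q μ x := by
  unfold Pot
  calc ∫⁻ y, (edist x y) ^ (-q) ∂σ ≤ ∫⁻ y, (edist x y) ^ (-q) ∂(a • μ) :=
        lintegral_mono' h le_rfl
    _ = a * ∫⁻ y, (edist x y) ^ (-q) ∂μ := by rw [lintegral_smul_measure, smul_eq_mul]

lemma bp_of_le {q : ℝ} {a : ℝ≥0∞} (ha : a ≠ ⊤) {σ μ : Measure (E n)} (h : σ ≤ a • μ)
    (hb : BP q μ) : BP q σ := by
  obtain ⟨B, hB⟩ := hb
  refine ⟨a.toNNReal * B, fun x => (pot_le h x).trans ?_⟩
  rw [ENNReal.coe_mul, ENNReal.coe_toNNReal ha]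
  gcongr
  exact hB x

lemma nr_prob {μ : Measure (E n)} [IsFiniteMeasure μ] {D : Set (E n)}
    (h : μ D ≠ 0) : IsProbabilityMeasure (nr μ D) := by
  refine ⟨?_⟩
  unfold nr
  rw [Measure.smul_apply, Measure.restrict_apply MeasurableSet.univ, univ_inter, smul_eq_mul,
    ENNReal.inv_mul_cancel h (measure_ne_top μ D)]

lemma nr_compl {μ : Measure (E n)} {D : Set (E n)} (hD : MeasurableSet D) :
    nr μ D Dᶜ = 0 := by
  unfold nr
  rw [Measure.smul_apply, Measure.restrict_apply hD.compl, compl_inter_self, measure_empty,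
    smul_zero]

lemma bs_of_le {a : ℝ≥0∞} {σ μ : Measure (E n)} (h : σ ≤ a • μ) (hb : BS μ) : BS σ := by
  obtain ⟨R, hR⟩ := hb
  refine ⟨R, le_antisymm ?_ bot_le⟩
  refine (h _).trans ?_
  rw [Measure.smul_apply, hR, smul_zero]

lemma le_trans_smul {a b : ℝ≥0∞} {σ μ ν : Measure (E n)} (h : σ ≤ a • μ) (h' : μ ≤ b • ν) :
    σ ≤ (a * b) • ν := by
  refine h.trans ((smul_mono_right a h').trans (le_of_eq ?_))
  rw [smul_smul]

theorem cls_proof : S_cls := by
  intro n q μ hμ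
  refine ⟨?_, ?_, ?_, ?_, ?_⟩
  · rintro σ ⟨h1, ⟨c, hc⟩, R, hR⟩ τ ⟨h1', ⟨c', hc'⟩, R', hR'⟩ t ht
    refine ⟨⟨?_⟩, ⟨c + c', ?_⟩, max R R', ?_⟩
    · unfold mixM
      rw [Measure.add_apply, Measure.smul_apply, Measure.smul_apply, measure_univ, measure_univ,
        smul_eq_mul, smul_eq_mul, mul_one, mul_one,
        ← ENNReal.ofReal_add (by linarith [ht.2]) ht.1]
      norm_num
    · unfold mixM
      have h2 : ENNReal.ofReal (1 - t) ≤ 1 := by
        rw [ENNReal.ofReal_le_one]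
        linarith [ht.1]
      have h3 : ENNReal.ofReal t ≤ 1 := by
        rw [ENNReal.ofReal_le_one]
        exact ht.2
      refine Measure.le_iff.2 fun s _ => ?_
      rw [Measure.add_apply, Measure.smul_apply, Measure.smul_apply, nn_smul, Measure.smul_apply,
        ENNReal.coe_add, smul_eq_mul, smul_eq_mul, smul_eq_mul, add_mul]
      have h4 : σ s ≤ c * μ s := hc s
      have h5 : τ s ≤ c' * μ s := hc' s
      exact add_le_add ((mul_le_mul' h2 h4).trans (by rw [one_mul]))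
        ((mul_le_mul' h3 h5).trans (by rw [one_mul]))
    · unfold mixM
      rw [Measure.add_apply, Measure.smul_apply, Measure.smul_apply]
      have h2 : σ (Metric.closedBall 0 (max R R'))ᶜ = 0 :=
        measure_mono_null (compl_subset_compl.2
          (Metric.closedBall_subset_closedBall (le_max_left _ _))) hR
      have h3 : τ (Metric.closedBall 0 (max R R'))ᶜ = 0 :=
        measure_mono_null (compl_subset_compl.2
          (Metric.closedBall_subset_closedBall (le_max_right _ _))) hR'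
      rw [h2, h3, smul_zero, smul_zero, add_zero]
  · rintro hb σ ⟨h1, ⟨c, hc⟩, h3⟩
    exact bp_of_le ENNReal.coe_ne_top hc hb
  · rintro σ ⟨h1, ⟨c, hc⟩, h3⟩ D hD h0
    have h4 := nr_le σ D
    have h5 : (σ D)⁻¹ ≠ ⊤ := ENNReal.inv_ne_top.2 h0
    refine ⟨⟨nr_prob h0, ⟨((σ D)⁻¹).toNNReal * c, ?_⟩, bs_of_le h4 h3⟩, nr_compl hD⟩
    rw [nn_smul, ENNReal.coe_mul, ENNReal.coe_toNNReal h5]
    exact le_trans_smul h4 hc
  · intro D hD h0 σ
    have h4 := nr_le μ D
    have h5 : (μ D)⁻¹ ≠ ⊤ := ENNReal.inv_ne_top.2 h0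
    constructor
    · rintro ⟨h1, ⟨c, hc⟩, h3⟩
      refine ⟨⟨h1, ⟨c * ((μ D)⁻¹).toNNReal, ?_⟩, h3⟩, ?_⟩
      · rw [nn_smul, ENNReal.coe_mul, ENNReal.coe_toNNReal h5]
        exact le_trans_smul hc h4
      · refine le_antisymm ((hc _).trans ?_) bot_le
        rw [nn_smul, Measure.smul_apply, nr_compl hD, smul_zero]
    · rintro ⟨⟨h1, ⟨c, hc⟩, h3⟩, h6⟩
      refine ⟨h1, ⟨c * (μ D).toNNReal, ?_⟩, h3⟩
      rw [nn_smul, ENNReal.coe_mul, ENNReal.coe_toNNReal (measure_ne_top μ D)]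
      unfold nr
      rw [smul_smul, mul_assoc, ENNReal.mul_inv_cancel h0 (measure_ne_top μ D), mul_one]
      have h7 : σ = σ.restrict D := by
        refine Measure.ext fun s hs => ?_
        rw [Measure.restrict_apply hs]
        refine le_antisymm ?_ (measure_mono inter_subset_left)
        calc σ s ≤ σ (s ∩ D ∪ Dᶜ) := measure_mono (by
              intro x hx
              by_cases hxD : x ∈ D
              · exact Or.inl ⟨hx, hxD⟩
              · exact Or.inr hxD)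
          _ ≤ σ (s ∩ D) + σ Dᶜ := measure_union_le _ _
          _ = σ (s ∩ D) := by rw [h6, add_zero]
      rw [h7, ← Measure.restrict_smul]
      exact Measure.restrict_mono le_rfl hc
  · intro D hD h0
    have h4 := nr_le μ D
    have h5 : (μ D)⁻¹ ≠ ⊤ := ENNReal.inv_ne_top.2 h0
    refine ⟨nr_prob h0, fun hb => bp_of_le h5 h4 hb, ?_⟩
    unfold Iq
    calc ∫⁻ x, Pot q (nr μ D) x ∂(nr μ D) ≤ ∫⁻ x, (μ D)⁻¹ * Pot q μ x ∂((μ D)⁻¹ • μ) :=
          lintegral_mono' h4 (fun x => pot_le h4 x)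
      _ = (μ D)⁻¹ * ((μ D)⁻¹ * ∫⁻ x, Pot q μ x ∂μ) := by
          rw [lintegral_smul_measure, smul_eq_mul, lintegral_const_mul' _ _ h5]
      _ = (μ D)⁻¹ * (μ D)⁻¹ * ∫⁻ x, Pot q μ x ∂μ := by rw [mul_assoc]

end Pool.Agent.R874.RC.Cls
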