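import Pool.Agent.R284.RC.Stm

/-!
# RC-CONT: continuity of the potential (project RC, MP_ce24da_an)
-/

set_option autoImplicit false
open MeasureTheory Set Filter Topology
open scoped ENNReal NNReal

namespace Pool.Agent.R874.RC.Cont

open Pool.Agent.R284.RC

variable {n : ℕ}

/-- the kernel as a function of the distance -/
noncomputable def K (p d : ℝ) : ℝ := if p = 0 then -Real.log d else d ^ (-p)

lemma kr_eq (p : ℝ) (x y : E n) : kr p x y = K p (dist x y) := rfl

lemma K_cont (p : ℝ) : ContinuousOn (K p) (Ioi 0) := by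
  unfold K
  split_ifs with h
  · exact (Real.continuousOn_log.mono fun d hd => ne_of_gt hd).neg
  · intro d hd
    exact (Real.continuousAt_rpow_const d (-p) (Or.inl (ne_of_gt hd))).continuousWithinAt

lemma K_anti {p : ℝ} (hp : 0 ≤ p) {d e : ℝ} (hd : 0 < d) (h : d ≤ e) : K p e ≤ K p d := by
  unfold K
  split_ifs with h0
  · exact neg_le_neg (Real.log_le_log hd h)
  · exact Real.rpow_le_rpow_of_nonpos hd h (by linarith)

lemma K_nonneg {p : ℝ} {d : ℝ} (hd : 0 < d) (hd1 : d ≤ 1) : 0 ≤ K p d := by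
  unfold K
  split_ifs with h0
  · have := Real.log_nonpos hd.le hd1
    linarith
  · exact Real.rpow_nonneg hd.le _

/-- the kernel is small compared with `d ^ (-q)` -/
lemma K_small {p q : ℝ} (hp : 0 ≤ p) (hpq : p < q) : ∃ C > (0 : ℝ), ∃ s > (0 : ℝ),
    ∀ d : ℝ, 0 < d → d ≤ 1 → K p d ≤ C * d ^ s * d ^ (-q) := by
  by_cases h0 : p = 0
  · have hq : 0 < q := by linarith
    refine ⟨2 / q, by positivity, q / 2, by positivity, fun d hd hd1 => ?_⟩
    unfold K
    rw [if_pos h0, mul_assoc, ← Real.rpow_add hd, show q / 2 + -q = -(q / 2) by ring]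
    have h1 := Real.add_one_le_exp (-(q / 2) * Real.log d)
    have h2 : Real.exp (-(q / 2) * Real.log d) = d ^ (-(q / 2)) := by
      rw [Real.rpow_def_of_pos hd, mul_comm]
    rw [h2] at h1
    have h3 : -Real.log d = 2 / q * (-(q / 2) * Real.log d) := by
      field_simp
    rw [h3]
    apply mul_le_mul_of_nonneg_left _ (by positivity)
    linarith
  · refine ⟨1, one_pos, q - p, by linarith, fun d hd hd1 => ?_⟩
    unfold K
    rw [if_neg h0, one_mul, ← Real.rpow_add hd]
    apply le_of_eq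
    congr 1
    ring

/-- truncated kernel -/
noncomputable def kt (p r : ℝ) (x y : E n) : ℝ := K p (max (dist x y) r)

lemma kt_cont {p r : ℝ} (hr : 0 < r) : Continuous (fun z : E n × E n => kt p r z.1 z.2) := by
  unfold kt
  have h1 : Continuous (fun z : E n × E n => max (dist z.1 z.2) r) :=
    (continuous_fst.dist continuous_snd).max continuous_const
  exact (K_cont p).comp_continuous h1 fun z => lt_of_lt_of_le hr (le_max_right _ _)

lemma kt_diff {p q : ℝ} (hp : 0 ≤ p) (hpq : p < q) {C s : ℝ} (hC : 0 < C) (hs : 0 < s)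
    (hK : ∀ d : ℝ, 0 < d → d ≤ 1 → K p d ≤ C * d ^ s * d ^ (-q)) {r : ℝ} (hr : 0 < r)
    (hr1 : r ≤ 1) (x y : E n) :
    ‖kr p x y - kt p r x y‖ₑ ≤ ENNReal.ofReal (C * r ^ s) * (edist x y) ^ (-q) := by
  rw [kr_eq, kt]
  set d := dist x y with hd
  by_cases h1 : r ≤ d
  · rw [max_eq_left h1, sub_self, enorm_zero]
    exact bot_le
  · rw [not_le] at h1
    rw [max_eq_right h1.le]
    have hq : 0 < q := by linarith
    have hCr : 0 < C * r ^ s := mul_pos hC (Real.rpow_pos_of_pos hr s)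
    by_cases h2 : x = y
    · rw [h2, edist_self, ENNReal.zero_rpow_of_neg (by linarith), ENNReal.mul_top]
      · exact le_top
      · exact (ENNReal.ofReal_pos.2 hCr).ne'
    · have hd0 : 0 < d := dist_pos.2 h2
      have h3 : (edist x y) ^ (-q) = ENNReal.ofReal (d ^ (-q)) := by
        rw [edist_dist, ENNReal.ofReal_rpow_of_pos hd0]
      rw [h3, ← ENNReal.ofReal_mul hCr.le, Real.enorm_eq_ofReal_abs]
      apply ENNReal.ofReal_le_ofReal
      have h4 := K_anti hp hd0 h1.le
      have h5 : 0 ≤ K p r := K_nonneg hr hr1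
      rw [abs_of_nonneg (by linarith)]
      have h6 := hK d hd0 (by linarith)
      have h7 : d ^ s ≤ r ^ s := Real.rpow_le_rpow hd0.le h1.le hs.le
      have h8 : C * d ^ s * d ^ (-q) ≤ C * r ^ s * d ^ (-q) := by
        apply mul_le_mul_of_nonneg_right _ (Real.rpow_nonneg hd0.le _)
        exact mul_le_mul_of_nonneg_left h7 hC.le
      linarith

/-- bound of the truncated kernel on bounded sets -/
lemma kt_bdd {p r : ℝ} (hr : 0 < r) (A : ℝ) : ∃ B : ℝ, ∀ x y : E n, dist x y ≤ A →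
    ‖kt p r x y‖ ≤ B := by
  have hc : ContinuousOn (K p) (Icc r (max A r)) :=
    (K_cont p).mono fun d hd => lt_of_lt_of_le hr hd.1
  obtain ⟨B, hB⟩ := isCompact_Icc.exists_bound_of_continuousOn hc
  exact ⟨B, fun x y h => hB _ ⟨le_max_right _ _, max_le_max h le_rfl⟩⟩

lemma Ut_cont {p r : ℝ} (hr : 0 < r) {τ : Measure (E n)} [IsFiniteMeasure τ] (hb : BS τ) :
    Continuous (fun x => ∫ y, kt p r x y ∂τ) := by
  obtain ⟨R, hR⟩ := hb
  rw [continuous_iff_continuousAt]
  intro x0
  obtain ⟨B, hB⟩ := kt_bdd (n := n) (p := p) hr (dist x0 0 + 1 + R)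
  refine continuousAt_of_dominated (bound := fun _ => B) ?_ ?_ (integrable_const B) ?_
  · refine Eventually.of_forall fun x => ?_
    exact ((kt_cont hr).comp (Continuous.prodMk_right x)).aestronglyMeasurable
  · filter_upwards [Metric.ball_mem_nhds x0 one_pos] with x hx
    have hR' : ∀ᵐ y ∂τ, y ∈ Metric.closedBall (0 : E n) R := by
      rw [ae_iff]
      exact hR
    filter_upwards [hR'] with y hy
    apply hB
    rw [Metric.mem_ball] at hx
    rw [Metric.mem_closedBall] at hy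
    calc dist x y ≤ dist x x0 + dist x0 0 + dist 0 y := dist_triangle4 _ _ _ _
      _ ≤ dist x0 0 + 1 + R := by
        rw [dist_comm 0 y]
        linarith
  · refine Eventually.of_forall fun y => ?_
    exact ((kt_cont hr).comp (Continuous.prodMk_left y)).continuousAt

lemma kt_int {p r : ℝ} (hr : 0 < r) {τ : Measure (E n)} [IsFiniteMeasure τ] (hb : BS τ)
    (x : E n) : Integrable (fun y => kt p r x y) τ := by
  obtain ⟨R, hR⟩ := hb
  obtain ⟨B, hB⟩ := kt_bdd (n := n) (p := p) hr (dist x 0 + R)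
  refine Integrable.of_bound
    ((kt_cont hr).comp (Continuous.prodMk_right x)).aestronglyMeasurable B ?_
  have hR' : ∀ᵐ y ∂τ, y ∈ Metric.closedBall (0 : E n) R := by
    rw [ae_iff]
    exact hR
  filter_upwards [hR'] with y hy
  apply hB
  rw [Metric.mem_closedBall] at hy
  calc dist x y ≤ dist x 0 + dist 0 y := dist_triangle _ _ _
    _ ≤ dist x 0 + R := by
      rw [dist_comm 0 y]
      linarith

theorem cont_proof (h : S_int) : S_cont := by
  intro n p q hp hpq τ hτ hbp hbs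
  obtain ⟨-, hint, -⟩ := h n p q hp hpq τ τ hτ hτ hbp hbs hbs
  obtain ⟨C, hC, s, hs, hK⟩ := K_small hp hpq
  obtain ⟨B, hB⟩ := hbp
  have hdiff : ∀ r : ℝ, 0 < r → r ≤ 1 → ∀ x : E n,
      |U p τ x - ∫ y, kt p r x y ∂τ| ≤ C * r ^ s * B := by
    intro r hr hr1 x
    unfold U
    rw [← integral_sub (hint x) (kt_int hr hbs x)]
    have hCr : 0 < C * r ^ s := mul_pos hC (Real.rpow_pos_of_pos hr s)
    have h1 : ‖∫ y, (kr p x y - kt p r x y) ∂τ‖ₑ ≤ ENNReal.ofReal (C * r ^ s * B) := by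
      calc ‖∫ y, (kr p x y - kt p r x y) ∂τ‖ₑ ≤ ∫⁻ y, ‖kr p x y - kt p r x y‖ₑ ∂τ :=
            enorm_integral_le_lintegral_enorm _
        _ ≤ ∫⁻ y, ENNReal.ofReal (C * r ^ s) * (edist x y) ^ (-q) ∂τ :=
            lintegral_mono fun y => kt_diff hp hpq hC hs hK hr hr1 x y
        _ = ENNReal.ofReal (C * r ^ s) * Pot q τ x := by
            rw [lintegral_const_mul' _ _ ENNReal.ofReal_ne_top]
            rfl
        _ ≤ ENNReal.ofReal (C * r ^ s) * B := by
            gcongr
            exact hB x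
        _ = ENNReal.ofReal (C * r ^ s * B) := by
            rw [ENNReal.ofReal_mul hCr.le, ENNReal.ofReal_coe_nnreal]
    rw [Real.enorm_eq_ofReal_abs] at h1
    exact (ENNReal.ofReal_le_ofReal_iff (mul_nonneg hCr.le B.2)).1 h1
  have hlim : Tendsto (fun r : ℝ => C * r ^ s * B) (𝓝[>] 0) (𝓝 0) := by
    have h1 : Tendsto (fun r : ℝ => r ^ s) (𝓝[>] 0) (𝓝 0) := by
      have h2 := (Real.continuousAt_rpow_const 0 s (Or.inr hs.le)).tendsto
      rw [Real.zero_rpow hs.ne'] at h2
      exact h2.mono_left nhdsWithin_le_nhds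
    have h3 := (h1.const_mul C).mul_const (B : ℝ)
    simpa using h3
  refine continuous_of_uniform_approx_of_continuous fun u hu => ?_
  obtain ⟨ε, hε, hu⟩ := Metric.mem_uniformity_dist.1 hu
  have h4 : ∀ᶠ r : ℝ in 𝓝[>] 0, C * r ^ s * B < ε := hlim.eventually_lt_const hε
  have h5 : ∀ᶠ r : ℝ in 𝓝[>] 0, r ∈ Ioo (0 : ℝ) 1 := Ioo_mem_nhdsGT one_pos
  obtain ⟨r, hr1, hr2⟩ := (h4.and h5).exists
  refine ⟨fun x => ∫ y, kt p r x y ∂τ, Ut_cont hr2.1 hbs, fun x => hu ?_⟩
  rw [Real.dist_eq]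
  exact lt_of_le_of_lt (hdiff r hr2.1 hr2.2.le x) hr1

end Pool.Agent.R874.RC.Cont
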